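import Mathlib

/-! Moreau envelopes of convex functions bounded below on a finite dimensional inner product
space, without differentiability. -/

namespace Pool.Agent.R972.WT

open MeasureTheory Set Filter Topology

variable {E : Type*} [NormedAddCommGroup E] [InnerProductSpace ℝ E] [FiniteDimensional ℝ E]

/-- The infimum convolution `Q f (x) = inf_y (f y + b^2 |x - y|^2)`. -/
noncomputable def Q (b : ℝ) (f : E → ℝ) (x : E) : ℝ := ⨅ y, (f y + b ^ 2 * ‖x - y‖ ^ 2)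

/-- A minimiser in the definition of `Q`. -/
noncomputable def prox (b : ℝ) (f : E → ℝ) (x : E) : E :=
  Classical.epsilon (fun y => ∀ z, f y + b ^ 2 * ‖x - y‖ ^ 2 ≤ f z + b ^ 2 * ‖x - z‖ ^ 2)

theorem cont_of_convex {f : E → ℝ} (hf : ConvexOn ℝ univ f) : Continuous f :=
  hf.locallyLipschitz.continuous

theorem prox_spec {b : ℝ} (hb : 0 < b) {f : E → ℝ} (hf : ConvexOn ℝ univ f) {m : ℝ}
    (hm : ∀ x, m ≤ f x) (x z : E) :
    f (prox b f x) + b ^ 2 * ‖x - prox b f x‖ ^ 2 ≤ f z + b ^ 2 * ‖x - z‖ ^ 2 := by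
  have key : ∃ y, ∀ z, f y + b ^ 2 * ‖x - y‖ ^ 2 ≤ f z + b ^ 2 * ‖x - z‖ ^ 2 := by
    have hc : Continuous (fun z => f z + b ^ 2 * ‖x - z‖ ^ 2) :=
      (cont_of_convex hf).add (by fun_prop)
    apply hc.exists_forall_le' x
    have h1 : Tendsto (fun z : E => ‖z‖) (cocompact E) atTop := tendsto_norm_cocompact_atTop
    set R : ℝ := ‖x‖ + (1 + (f x - m)) / b + 1 with hR
    have h2 : ∀ᶠ z in cocompact E, R ≤ ‖z‖ := h1.eventually_ge_atTop R
    filter_upwards [h2] with z hz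
    have h3 : ‖z‖ - ‖x‖ ≤ ‖x - z‖ := by
      have := norm_sub_norm_le z x
      rwa [norm_sub_rev] at this
    have h4 : (1 + (f x - m)) / b ≤ ‖x - z‖ := by linarith
    have h5 : 1 + (f x - m) ≤ b * ‖x - z‖ := by
      rw [div_le_iff₀ hb] at h4; linarith
    have h6 : (f x - m) ≤ b ^ 2 * ‖x - z‖ ^ 2 := by
      have h7 : 0 ≤ f x - m := sub_nonneg.2 (hm x)
      nlinarith
    have h8 : ‖x - x‖ = 0 := by simp
    rw [h8]
    have := hm z
    nlinarith
  exact Classical.epsilon_spec key z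

theorem bddBelow_Q (b : ℝ) {f : E → ℝ} {m : ℝ} (hm : ∀ x, m ≤ f x) (x : E) :
    BddBelow (range (fun y => f y + b ^ 2 * ‖x - y‖ ^ 2)) := by
  refine ⟨m, ?_⟩
  rintro _ ⟨y, rfl⟩
  have := hm y
  have : 0 ≤ b ^ 2 * ‖x - y‖ ^ 2 := by positivity
  simp only
  linarith

theorem Q_le (b : ℝ) {f : E → ℝ} {m : ℝ} (hm : ∀ x, m ≤ f x) (x y : E) :
    Q b f x ≤ f y + b ^ 2 * ‖x - y‖ ^ 2 :=
  ciInf_le (bddBelow_Q b hm x) y

theorem le_Q (b : ℝ) {f : E → ℝ} {x : E} {c : ℝ} (h : ∀ y, c ≤ f y + b ^ 2 * ‖x - y‖ ^ 2) :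
    c ≤ Q b f x := le_ciInf h

theorem m_le_Q (b : ℝ) {f : E → ℝ} {m : ℝ} (hm : ∀ x, m ≤ f x) (x : E) : m ≤ Q b f x :=
  le_Q b (fun y => by
    have := hm y
    have : 0 ≤ b ^ 2 * ‖x - y‖ ^ 2 := by positivity
    linarith)

theorem Q_le_self (b : ℝ) {f : E → ℝ} {m : ℝ} (hm : ∀ x, m ≤ f x) (x : E) : Q b f x ≤ f x := by
  have := Q_le b hm x x
  simpa using this

theorem Q_mono (b : ℝ) {f f' : E → ℝ} {m : ℝ} (hm : ∀ x, m ≤ f x) (h : ∀ x, f x ≤ f' x) (x : E) :
    Q b f x ≤ Q b f' x :=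
  le_Q b (fun y => (Q_le b hm x y).trans (by linarith [h y]))

section
variable {b : ℝ} (hb : 0 < b) {f : E → ℝ} (hf : ConvexOn ℝ univ f) {m : ℝ} (hm : ∀ x, m ≤ f x)
include hb hf hm

theorem Q_eq (x : E) : Q b f x = f (prox b f x) + b ^ 2 * ‖x - prox b f x‖ ^ 2 :=
  le_antisymm (Q_le b hm x _) (le_Q b (prox_spec hb hf hm x))

theorem Q_strong (x z : E) :
    Q b f x + b ^ 2 * ‖z - prox b f x‖ ^ 2 ≤ f z + b ^ 2 * ‖x - z‖ ^ 2 := by
  set P := prox b f x with hP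
  have hQ : Q b f x = f P + b ^ 2 * ‖x - P‖ ^ 2 := Q_eq hb hf hm x
  have key : ∀ t : ℝ, 0 < t → t < 1 →
      Q b f x + (1 - t) * (b ^ 2 * ‖z - P‖ ^ 2) ≤ f z + b ^ 2 * ‖x - z‖ ^ 2 := by
    intro t ht0 ht1
    have h1 : f ((1 - t) • P + t • z) ≤ (1 - t) * f P + t * f z := by
      have := hf.2 (mem_univ P) (mem_univ z) (by linarith : (0:ℝ) ≤ 1 - t) ht0.le (by ring)
      simpa using this
    have h2 := Q_le b hm x ((1 - t) • P + t • z)
    have h3 : ‖x - ((1 - t) • P + t • z)‖ ^ 2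
        = (1 - t) * ‖x - P‖ ^ 2 + t * ‖x - z‖ ^ 2 - t * (1 - t) * ‖z - P‖ ^ 2 := by
      have e1 : x - ((1 - t) • P + t • z) = (1 - t) • (x - P) + t • (x - z) := by
        rw [smul_sub, smul_sub, sub_smul, sub_smul]; simp only [one_smul]; abel
      have e2 : z - P = (x - P) - (x - z) := by abel
      rw [e1, e2]
      have n1 : ‖(1 - t) • (x - P) + t • (x - z)‖ ^ 2
          = (1 - t) ^ 2 * ‖x - P‖ ^ 2 + 2 * ((1 - t) * t * inner ℝ (x - P) (x - z))
            + t ^ 2 * ‖x - z‖ ^ 2 := by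
        rw [norm_add_sq_real, norm_smul, norm_smul, real_inner_smul_left, real_inner_smul_right,
          mul_pow, mul_pow, Real.norm_eq_abs, Real.norm_eq_abs, sq_abs, sq_abs]
        ring
      have n2 : ‖(x - P) - (x - z)‖ ^ 2
          = ‖x - P‖ ^ 2 - 2 * inner ℝ (x - P) (x - z) + ‖x - z‖ ^ 2 := norm_sub_sq_real _ _
      rw [n1, n2]; ring
    rw [h3] at h2
    have h4 : t * (Q b f x + (1 - t) * (b ^ 2 * ‖z - P‖ ^ 2))
        ≤ t * (f z + b ^ 2 * ‖x - z‖ ^ 2) := by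
      nlinarith [h1, h2, hQ]
    exact le_of_mul_le_mul_left h4 ht0
  by_contra hcon
  push Not at hcon
  set A := b ^ 2 * ‖z - P‖ ^ 2 with hA
  have hA0 : 0 ≤ A := by positivity
  set D := Q b f x + A - (f z + b ^ 2 * ‖x - z‖ ^ 2) with hD
  have hD0 : 0 < D := by linarith
  have ht : 0 < D / (2 * (A + D)) := by positivity
  have ht1 : D / (2 * (A + D)) < 1 := by
    rw [div_lt_one (by positivity)]; linarith
  have h5 := key _ ht ht1
  have h6 : D / (2 * (A + D)) * A ≤ D / 2 := by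
    rw [div_mul_eq_mul_div, div_le_div_iff₀ (by positivity) (by norm_num)]
    nlinarith [mul_nonneg hD0.le hA0, mul_pos hD0 hD0]
  nlinarith

/-- The deficiency `v = b^2 |x - prox x|^2`. -/
theorem Q_add_v_le (x : E) : Q b f x + b ^ 2 * ‖x - prox b f x‖ ^ 2 ≤ f x := by
  have := Q_strong hb hf hm x x
  simpa using this

theorem v_le (x : E) : b ^ 2 * ‖x - prox b f x‖ ^ 2 ≤ Q b f x - m := by
  have h1 := Q_eq hb hf hm x
  have h2 := hm (prox b f x)
  linarith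

theorem Q_subgrad (x z : E) :
    Q b f x + 2 * b ^ 2 * inner ℝ (x - prox b f x) (z - x) ≤ Q b f z := by
  have h1 := Q_strong hb hf hm x (prox b f z)
  have h2 := Q_eq hb hf hm z
  set P := prox b f x
  set R := prox b f z
  -- f R ≥ Q x + b² |R-P|² - b² |x - R|²
  have e : ‖z - R‖ ^ 2 + ‖R - P‖ ^ 2 - ‖x - R‖ ^ 2 - 2 * inner ℝ (x - P) (z - x)
      = ‖(x - P) - (z - R)‖ ^ 2 := by
    have e1 : R - P = (x - P) - (z - R) + (z - x) := by abel
    have e2 : x - R = (z - R) - (z - x) := by abel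
    rw [e1, e2, norm_add_sq_real, norm_sub_sq_real (z - R) (z - x), inner_sub_left]
    ring
  have h3 : 0 ≤ b ^ 2 * ‖(x - P) - (z - R)‖ ^ 2 := by positivity
  rw [← e] at h3
  nlinarith

theorem prox_lip (x z : E) : ‖prox b f x - prox b f z‖ ≤ ‖x - z‖ := by
  have h1 := Q_strong hb hf hm x (prox b f z)
  have h2 := Q_strong hb hf hm z (prox b f x)
  have h3 := Q_eq hb hf hm x
  have h4 := Q_eq hb hf hm z
  set P := prox b f x
  set R := prox b f z
  have e : ‖x - R‖ ^ 2 + ‖z - P‖ ^ 2 - ‖x - P‖ ^ 2 - ‖z - R‖ ^ 2 = 2 * inner ℝ (x - z) (P - R) := by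
    rw [norm_sub_sq_real, norm_sub_sq_real, norm_sub_sq_real, norm_sub_sq_real, inner_sub_left,
      inner_sub_right, inner_sub_right]
    ring
  have e5 : ‖R - P‖ = ‖P - R‖ := norm_sub_rev _ _
  rw [e5] at h1
  have h6 : b ^ 2 * ‖P - R‖ ^ 2 ≤ b ^ 2 * inner ℝ (x - z) (P - R) := by nlinarith
  have h7 : ‖P - R‖ ^ 2 ≤ inner ℝ (x - z) (P - R) := le_of_mul_le_mul_left h6 (by positivity)
  have h8 : inner ℝ (x - z) (P - R) ≤ ‖x - z‖ * ‖P - R‖ := real_inner_le_norm _ _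
  by_cases h0 : ‖P - R‖ = 0
  · rw [h0]; positivity
  · have h9 : 0 < ‖P - R‖ := lt_of_le_of_ne (norm_nonneg _) (Ne.symm h0)
    have h10 : ‖P - R‖ * ‖P - R‖ ≤ ‖x - z‖ * ‖P - R‖ := by nlinarith
    exact le_of_mul_le_mul_right h10 h9

theorem prox_cont : Continuous (prox b f) := by
  have : LipschitzWith 1 (prox b f) := LipschitzWith.of_dist_le_mul (fun x z => by
    rw [dist_eq_norm, dist_eq_norm]; simpa using prox_lip hb hf hm x z)
  exact this.continuous

theorem v_cont : Continuous (fun x => b ^ 2 * ‖x - prox b f x‖ ^ 2) := by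
  have := prox_cont hb hf hm
  fun_prop

theorem Q_convex : ConvexOn ℝ univ (Q b f) := by
  refine ⟨convex_univ, fun x _ z _ s t hs ht hst => ?_⟩
  set w := s • x + t • z with hw
  have h1 := Q_subgrad hb hf hm w x
  have h2 := Q_subgrad hb hf hm w z
  have e : s * inner ℝ (w - prox b f w) (x - w) + t * inner ℝ (w - prox b f w) (z - w) = 0 := by
    rw [← real_inner_smul_right, ← real_inner_smul_right, ← inner_add_right]
    have : s • (x - w) + t • (z - w) = 0 := by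
      rw [smul_sub, smul_sub]
      have : s • x - s • w + (t • z - t • w) = (s • x + t • z) - (s + t) • w := by
        rw [add_smul]; abel
      rw [this, hst, one_smul, hw, sub_self]
    rw [this, inner_zero_right]
  simp only [smul_eq_mul]
  have h3 := mul_le_mul_of_nonneg_left h1 hs
  have h4 := mul_le_mul_of_nonneg_left h2 ht
  have h5 : s * Q b f w + t * Q b f w = Q b f w := by rw [← add_mul, hst, one_mul]
  nlinarith

theorem Q_cont : Continuous (Q b f) := cont_of_convex (Q_convex hb hf hm)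

end

end Pool.Agent.R972.WT
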