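import Mathlib
import Pool.Agent.R972.WT.Prox

/-! Dual form of the weak transport inequality `T^-`, exponential moments. -/

namespace Pool.Agent.R972.WT

open MeasureTheory Set Filter Topology

variable {E : Type*} [NormedAddCommGroup E] [InnerProductSpace ℝ E] [FiniteDimensional ℝ E]
  [MeasurableSpace E] [BorelSpace E]

/-- Dual form of `T^-` for the cost `t ↦ a^2 t^2`. -/
def TMinus (a : ℝ) (μ : Measure E) : Prop :=
  ∀ f : E → ℝ, ConvexOn ℝ univ f → BddBelow (range f) → Integrable f μ →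
    Integrable (fun x => Real.exp (Q a f x)) μ ∧
      ∫ x, Real.exp (Q a f x) ∂μ ≤ Real.exp (∫ x, f x ∂μ)

/-- Dual form of `T^+` for the cost `t ↦ a^2 t^2`. -/
def TPlus (a : ℝ) (μ : Measure E) : Prop :=
  ∀ f : E → ℝ, ConvexOn ℝ univ f → BddBelow (range f) →
    Integrable (Q a f) μ ∧ Real.exp (∫ x, Q a f x ∂μ) * ∫ x, Real.exp (-f x) ∂μ ≤ 1

omit [MeasurableSpace E] [BorelSpace E] in
/-- Quadratic growth of the envelope. -/
theorem Q_growth {b : ℝ} (hb : 0 < b) {f : E → ℝ} (hf : ConvexOn ℝ univ f) {m : ℝ}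
    (hm : ∀ x, m ≤ f x) : ∃ C : ℝ, 0 ≤ C ∧ (∀ x, |Q b f x| ≤ C * (1 + ‖x‖) ^ 2) ∧
      (∀ x, |b ^ 2 * ‖x - prox b f x‖ ^ 2| ≤ C * (1 + ‖x‖) ^ 2) := by
  refine ⟨|f 0| + |m| + b ^ 2, by positivity, fun x => ?_, fun x => ?_⟩
  · have h1 := m_le_Q b hm x
    have h2 := Q_le b hm x 0
    rw [sub_zero] at h2
    have h3 := le_abs_self (f 0)
    have h4 := neg_abs_le m
    have h5 : 0 ≤ ‖x‖ := norm_nonneg x
    have h6 : 1 ≤ (1 + ‖x‖) ^ 2 := by nlinarith
    have h7 : ‖x‖ ^ 2 ≤ (1 + ‖x‖) ^ 2 := by nlinarith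
    have h8 := abs_nonneg (f 0)
    have h9 := abs_nonneg m
    have hb2 : 0 ≤ b ^ 2 := sq_nonneg b
    rw [abs_le]
    constructor
    · nlinarith [mul_le_mul_of_nonneg_left h6 h8, mul_le_mul_of_nonneg_left h6 h9,
        mul_le_mul_of_nonneg_left h6 hb2]
    · nlinarith [mul_le_mul_of_nonneg_left h6 h8, mul_le_mul_of_nonneg_left h6 h9,
        mul_le_mul_of_nonneg_left h7 hb2]
  · have h0 := v_le hb hf hm x
    have h2 := Q_le b hm x 0
    rw [sub_zero] at h2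
    have h3 := le_abs_self (f 0)
    have h4 := neg_abs_le m
    have h5 : 0 ≤ ‖x‖ := norm_nonneg x
    have h6 : 1 ≤ (1 + ‖x‖) ^ 2 := by nlinarith
    have h7 : ‖x‖ ^ 2 ≤ (1 + ‖x‖) ^ 2 := by nlinarith
    have h8 := abs_nonneg (f 0)
    have h9 := abs_nonneg m
    have hb2 : 0 ≤ b ^ 2 := sq_nonneg b
    rw [abs_of_nonneg (by positivity)]
    nlinarith [mul_le_mul_of_nonneg_left h6 h8, mul_le_mul_of_nonneg_left h6 h9,
        mul_le_mul_of_nonneg_left h7 hb2]

section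
variable {a : ℝ} (ha : 0 < a) {μ : Measure E} [IsProbabilityMeasure μ]
  (hint : Integrable (fun x : E => ‖x‖) μ) (hT : TMinus a μ)
include ha hint hT

theorem exp_norm {lam : ℝ} (hl : 0 ≤ lam) :
    Integrable (fun x : E => Real.exp (lam * ‖x‖)) μ ∧
      ∫ x, Real.exp (lam * ‖x‖) ∂μ
        ≤ Real.exp (lam * (∫ x, ‖x‖ ∂μ) + lam ^ 2 / (4 * a ^ 2)) := by
  set f : E → ℝ := fun x => lam * ‖x‖ with hf
  have hfc : ConvexOn ℝ univ f := by
    have := (convexOn_univ_norm (E := E)).smul hl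
    simpa [hf, smul_eq_mul] using this
  have hfb : BddBelow (range f) := ⟨0, by rintro _ ⟨y, rfl⟩; positivity⟩
  have hfi : Integrable f μ := hint.const_mul lam
  obtain ⟨h1, h2⟩ := hT f hfc hfb hfi
  have h3 : ∀ x, lam * ‖x‖ - lam ^ 2 / (4 * a ^ 2) ≤ Q a f x := by
    intro x
    apply le_Q
    intro y
    have h4 : ‖x‖ - ‖x - y‖ ≤ ‖y‖ := by
      have := norm_sub_norm_le x (x - y)
      rwa [sub_sub_cancel] at this
    have h5 : lam * (‖x‖ - ‖x - y‖) ≤ lam * ‖y‖ := mul_le_mul_of_nonneg_left h4 hl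
    have h6 : 0 ≤ (a * ‖x - y‖ - lam / (2 * a)) ^ 2 := sq_nonneg _
    have h7 : (a * ‖x - y‖ - lam / (2 * a)) ^ 2
        = a ^ 2 * ‖x - y‖ ^ 2 - lam * ‖x - y‖ + lam ^ 2 / (4 * a ^ 2) := by
      field_simp; ring
    simp only [hf]
    nlinarith
  have h4 : ∀ x, Real.exp (lam * ‖x‖) ≤ Real.exp (lam ^ 2 / (4 * a ^ 2)) * Real.exp (Q a f x) := by
    intro x
    rw [← Real.exp_add]
    exact Real.exp_le_exp.2 (by linarith [h3 x])
  have hI : Integrable (fun x : E => Real.exp (lam * ‖x‖)) μ := by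
    apply (h1.const_mul (Real.exp (lam ^ 2 / (4 * a ^ 2)))).mono'
    · exact (by fun_prop : Continuous (fun x : E => Real.exp (lam * ‖x‖))).aestronglyMeasurable
    · exact Eventually.of_forall (fun x => by
        rw [Real.norm_eq_abs, abs_of_pos (Real.exp_pos _)]; exact h4 x)
  refine ⟨hI, ?_⟩
  calc ∫ x, Real.exp (lam * ‖x‖) ∂μ
      ≤ ∫ x, Real.exp (lam ^ 2 / (4 * a ^ 2)) * Real.exp (Q a f x) ∂μ :=
        integral_mono hI (h1.const_mul _) h4
    _ = Real.exp (lam ^ 2 / (4 * a ^ 2)) * ∫ x, Real.exp (Q a f x) ∂μ := integral_const_mul _ _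
    _ ≤ Real.exp (lam ^ 2 / (4 * a ^ 2)) * Real.exp (∫ x, f x ∂μ) :=
        mul_le_mul_of_nonneg_left h2 (Real.exp_pos _).le
    _ = _ := by
        rw [← Real.exp_add]
        congr 1
        simp only [hf, integral_const_mul]
        ring

theorem pow_int (k : ℕ) : Integrable (fun x : E => (1 + ‖x‖) ^ k) μ := by
  obtain ⟨h1, -⟩ := exp_norm ha hint hT (lam := 1) zero_le_one
  apply (h1.const_mul (Real.exp 1 * k.factorial)).mono'
  · exact (by fun_prop : Continuous (fun x : E => (1 + ‖x‖) ^ k)).aestronglyMeasurable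
  · refine Eventually.of_forall (fun x => ?_)
    have h0 : 0 ≤ 1 + ‖x‖ := by positivity
    rw [Real.norm_eq_abs, abs_of_nonneg (by positivity)]
    have h2 := Real.pow_div_factorial_le_exp (1 + ‖x‖) h0 k
    rw [div_le_iff₀ (by positivity)] at h2
    rw [Real.exp_add] at h2
    simp only [one_mul]
    nlinarith

theorem int_of_bound {h : E → ℝ} (hc : Continuous h) {C : ℝ} {k : ℕ}
    (hb : ∀ x, |h x| ≤ C * (1 + ‖x‖) ^ k) : Integrable h μ :=
  ((pow_int ha hint hT k).const_mul C).mono' hc.aestronglyMeasurable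
    (Eventually.of_forall (fun x => by rw [Real.norm_eq_abs]; exact hb x))

end

end Pool.Agent.R972.WT
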