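import Mathlib
import Pool.Agent.R972.WT.Moments

/-! Square integrals of distances to closed convex sets. -/

namespace Pool.Agent.R972.WT

open MeasureTheory Set Filter Topology

variable {E : Type*} [NormedAddCommGroup E] [InnerProductSpace ℝ E] [FiniteDimensional ℝ E]

theorem infDist_convex {B : Set E} (hB : IsClosed B) (hc : Convex ℝ B) (hne : B.Nonempty) :
    ConvexOn ℝ univ (fun x => Metric.infDist x B) := by
  refine ⟨convex_univ, fun x _ z _ s t hs ht hst => ?_⟩
  obtain ⟨p, hp, hp'⟩ := hB.exists_infDist_eq_dist hne x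
  obtain ⟨q, hq, hq'⟩ := hB.exists_infDist_eq_dist hne z
  simp only [smul_eq_mul]
  rw [hp', hq']
  have h1 : s • p + t • q ∈ B := hc hp hq hs ht hst
  calc Metric.infDist (s • x + t • z) B ≤ dist (s • x + t • z) (s • p + t • q) :=
        Metric.infDist_le_dist_of_mem h1
    _ = ‖s • (x - p) + t • (z - q)‖ := by
        rw [dist_eq_norm]; congr 1; rw [smul_sub, smul_sub]; abel
    _ ≤ ‖s • (x - p)‖ + ‖t • (z - q)‖ := norm_add_le _ _
    _ = s * dist x p + t * dist z q := by
        rw [norm_smul, norm_smul, Real.norm_of_nonneg hs, Real.norm_of_nonneg ht, dist_eq_norm,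
          dist_eq_norm]

theorem scalar_aux {t u w : ℝ} (ht : 0 ≤ t) (hu : 0 ≤ u) (hw : 0 ≤ w) (h : t ≤ u + w) :
    1 + t ^ 2 ≤ Real.exp (2 * w + u ^ 2) := by
  rcases le_or_gt t 1 with h1 | h1
  · have h2 : t ^ 2 ≤ 2 * w + u ^ 2 := by
      rcases le_or_gt u t with h3 | h3
      · nlinarith [mul_nonneg (sub_nonneg.2 h3) (by linarith : (0:ℝ) ≤ 2 - t - u)]
      · nlinarith
    have := Real.add_one_le_exp (2 * w + u ^ 2)
    linarith
  · have h2 : 2 * t - 1 ≤ 2 * w + u ^ 2 := by nlinarith [sq_nonneg (u - 1)]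
    have h3 := Real.quadratic_le_exp_of_nonneg (by linarith : (0:ℝ) ≤ 2 * t - 1)
    have h4 := Real.exp_le_exp.2 h2
    nlinarith

variable [MeasurableSpace E] [BorelSpace E]

theorem dist_bound {a : ℝ} (ha : 0 < a) {μ : Measure E} [IsProbabilityMeasure μ]
    (hint : Integrable (fun x : E => ‖x‖) μ) (hT : TMinus a μ) :
    ∃ C : ℝ, 0 < C ∧ ∀ B : Set E, IsClosed B → Convex ℝ B → 0 < μ.real B →
      Integrable (fun x => Metric.infDist x B ^ 2) μ ∧
      ∫ x, Metric.infDist x B ^ 2 ∂μ ≤ C * Real.log (1 / μ.real B) := by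
  set m1 := ∫ x : E, ‖x‖ ∂μ with hm1
  set m2 := ∫ x : E, (1 + ‖x‖) ^ 2 ∂μ with hm2
  have hm10 : 0 ≤ m1 := integral_nonneg (fun x => norm_nonneg x)
  have hm20 : 0 ≤ m2 := integral_nonneg (fun x => by positivity)
  set M := 2 * a ^ 2 * m2 + 4 * a ^ 2 * m1 ^ 2 with hM
  have hM0 : 0 ≤ M := by positivity
  refine ⟨(20 + 4 * M * (M + 4)) / a ^ 2, by positivity, ?_⟩
  intro B hB hBc hq
  have hne : B.Nonempty := by
    by_contra h
    rw [not_nonempty_iff_eq_empty] at h
    rw [h] at hq; simp at hq
  set q := μ.real B with hqdef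
  have hq1 : q ≤ 1 := measureReal_le_one
  set L := Real.log (1 / q) with hL
  have hLq : L = - Real.log q := by rw [hL, one_div, Real.log_inv]
  have hL0 : 0 ≤ L := by rw [hLq]; have := Real.log_nonpos hq.le hq1; linarith
  set d : E → ℝ := fun x => Metric.infDist x B with hd
  have hd0 : ∀ x, 0 ≤ d x := fun x => Metric.infDist_nonneg
  have hdc : Continuous d := Metric.continuous_infDist_pt B
  set R := d 0 with hR
  have hR0 : 0 ≤ R := hd0 0
  have hdR : ∀ x, d x ≤ R + ‖x‖ := fun x => by
    have := Metric.infDist_le_infDist_add_dist (s := B) (x := x) (y := 0)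
    rw [dist_zero_right] at this
    exact this
  -- integrability
  have hdi : Integrable d μ := by
    apply int_of_bound ha hint hT (C := R + 1) (k := 1) hdc
    intro x
    rw [abs_of_nonneg (hd0 x), pow_one]
    nlinarith [hdR x, norm_nonneg x]
  have hd2i : Integrable (fun x => d x ^ 2) μ := by
    apply int_of_bound ha hint hT (C := (R + 1) ^ 2) (k := 2) (by fun_prop)
    intro x
    rw [abs_of_nonneg (by positivity), ← mul_pow]
    apply pow_le_pow_left₀ (hd0 x)
    nlinarith [hdR x, norm_nonneg x]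
  have hmB : MeasurableSet B := hB.measurableSet
  -- Step A
  have hA : a ^ 2 * R ^ 2 ≤ 2 * a ^ 2 * m1 ^ 2 + 2 * L := by
    rcases le_or_gt R m1 with h | h
    · have : R ^ 2 ≤ m1 ^ 2 := pow_le_pow_left₀ hR0 h 2
      have h3 : 0 ≤ a ^ 2 * m1 ^ 2 := by positivity
      nlinarith [mul_le_mul_of_nonneg_left this (sq_nonneg a)]
    · set lam := 2 * a ^ 2 * (R - m1) with hlam
      have hlam0 : 0 ≤ lam := by
        have : 0 < R - m1 := by linarith
        positivity
      obtain ⟨h1, h2⟩ := exp_norm ha hint hT hlam0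
      have h3 : q * Real.exp (lam * R) ≤ ∫ x : E, Real.exp (lam * ‖x‖) ∂μ := by
        have h4 : ∫ x, B.indicator (fun _ => Real.exp (lam * R)) x ∂μ = q * Real.exp (lam * R) := by
          rw [integral_indicator_const _ hmB, smul_eq_mul]
        rw [← h4]
        apply integral_mono ((integrable_const _).indicator hmB) h1
        intro x
        by_cases hx : x ∈ B
        · rw [indicator_of_mem hx]
          apply Real.exp_le_exp.2
          apply mul_le_mul_of_nonneg_left _ hlam0
          have := Metric.infDist_le_dist_of_mem (x := (0 : E)) hx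
          rwa [dist_zero_left] at this
        · rw [indicator_of_notMem hx]
          exact (Real.exp_pos _).le
      have h5 := h3.trans h2
      have h6 : Real.log q + lam * R ≤ lam * m1 + lam ^ 2 / (4 * a ^ 2) := by
        have h7 := Real.log_le_log (mul_pos hq (Real.exp_pos _)) h5
        rw [Real.log_mul hq.ne' (Real.exp_pos _).ne', Real.log_exp, Real.log_exp] at h7
        exact h7
      have h8 : lam ^ 2 / (4 * a ^ 2) = a ^ 2 * (R - m1) ^ 2 := by
        rw [hlam]; field_simp; ring
      rw [h8] at h6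
      have h9 : a ^ 2 * (R - m1) ^ 2 ≤ L := by rw [hLq]; nlinarith
      nlinarith [mul_nonneg (sq_nonneg a) (sq_nonneg (R - m1 - m1))]
  -- Step B
  set X := a ^ 2 * ∫ x, d x ^ 2 ∂μ with hX
  have hX0 : 0 ≤ X := by
    have : 0 ≤ ∫ x, d x ^ 2 ∂μ := integral_nonneg (fun x => sq_nonneg _)
    positivity
  have hB1 : X ≤ M + 4 * L := by
    have h1 : ∫ x, d x ^ 2 ∂μ ≤ ∫ x, (2 * (1 + ‖x‖) ^ 2 + 2 * R ^ 2) ∂μ := by
      apply integral_mono hd2i (((pow_int ha hint hT 2).const_mul 2).add (integrable_const _))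
      intro x
      have := hdR x
      have h0 := hd0 x
      have h3 := norm_nonneg x
      have h4 : d x ^ 2 ≤ (R + ‖x‖) ^ 2 := pow_le_pow_left₀ h0 this 2
      show d x ^ 2 ≤ 2 * (1 + ‖x‖) ^ 2 + 2 * R ^ 2
      nlinarith [sq_nonneg (R - ‖x‖)]
    rw [integral_add ((pow_int ha hint hT 2).const_mul 2) (integrable_const _), integral_const_mul] at h1
    simp only [integral_const, probReal_univ, one_smul] at h1
    have h2 := mul_le_mul_of_nonneg_left h1 (sq_nonneg a)
    nlinarith
  -- Step C
  have hC1 : 1 + X ≤ Real.exp (2 * a * ∫ x, d x ∂μ) := by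
    have hfc : ConvexOn ℝ univ (fun x => 2 * a * d x) := by
      have := (infDist_convex hB hBc hne).smul (by positivity : (0:ℝ) ≤ 2 * a)
      simpa [smul_eq_mul] using this
    have hbdd : BddBelow (range (fun x => 2 * a * d x)) :=
      ⟨0, by rintro _ ⟨y, rfl⟩; have := hd0 y; positivity⟩
    obtain ⟨h1, h2⟩ := hT _ hfc hbdd (hdi.const_mul (2 * a))
    rw [integral_const_mul] at h2
    refine le_trans ?_ h2
    have h3 : 1 + X = ∫ x, (1 + a ^ 2 * d x ^ 2) ∂μ := by
      rw [integral_add (integrable_const _) (hd2i.const_mul _), integral_const_mul]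
      simp [hX]
    rw [h3]
    apply integral_mono ((integrable_const _).add (hd2i.const_mul _)) h1
    intro x
    show 1 + a ^ 2 * d x ^ 2 ≤ Real.exp (Q a (fun x => 2 * a * d x) x)
    have hp : 0 < 1 + a ^ 2 * d x ^ 2 := by positivity
    rw [← Real.log_le_iff_le_exp hp]
    apply le_Q
    intro y
    rw [Real.log_le_iff_le_exp hp]
    have h4 := scalar_aux (t := a * d x) (u := a * ‖x - y‖) (w := a * d y)
      (mul_nonneg ha.le (hd0 x)) (by positivity) (mul_nonneg ha.le (hd0 y)) (by
        rw [← mul_add]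
        apply mul_le_mul_of_nonneg_left _ ha.le
        have := Metric.infDist_le_infDist_add_dist (s := B) (x := x) (y := y)
        rw [dist_eq_norm] at this
        simp only [hd]; linarith)
    calc 1 + a ^ 2 * d x ^ 2 = 1 + (a * d x) ^ 2 := by ring
      _ ≤ _ := h4
      _ = _ := by congr 1; ring
  -- Step D
  have hD : ∀ τ : ℝ, 0 < τ → 2 * a * (∫ x, d x ∂μ) ≤ τ * (1 - q) + X / τ := by
    intro τ hτ
    have h1 : τ * (1 - q) + X / τ = ∫ x, (Bᶜ.indicator (fun _ => τ) x + a ^ 2 * d x ^ 2 / τ) ∂μ := by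
      rw [integral_add ((integrable_const _).indicator hmB.compl) ((hd2i.const_mul _).div_const _),
        integral_indicator_const _ hmB.compl, integral_div, integral_const_mul,
        probReal_compl_eq_one_sub hmB, smul_eq_mul]
      ring
    rw [h1, ← integral_const_mul]
    apply integral_mono (hdi.const_mul _)
      (((integrable_const _).indicator hmB.compl).add ((hd2i.const_mul _).div_const _))
    intro x
    show 2 * a * d x ≤ Bᶜ.indicator (fun _ => τ) x + a ^ 2 * d x ^ 2 / τ
    by_cases hx : x ∈ B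
    · have h0 : d x = 0 := Metric.infDist_zero_of_mem hx
      rw [h0, indicator_of_notMem (by simpa using hx)]
      simp
    · rw [indicator_of_mem (by simpa using hx)]
      have h3 : 2 * a * d x * τ ≤ (τ + a ^ 2 * d x ^ 2 / τ) * τ := by
        have : (τ + a ^ 2 * d x ^ 2 / τ) * τ = τ ^ 2 + a ^ 2 * d x ^ 2 := by field_simp
        rw [this]; nlinarith [sq_nonneg (τ - a * d x)]
      exact le_of_mul_le_mul_right h3 hτ
  have hpL : 1 - q ≤ L := by
    rw [hLq]
    have := Real.log_le_sub_one_of_pos hq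
    linarith
  refine ⟨hd2i, ?_⟩
  have hfin : X ≤ (20 + 4 * M * (M + 4)) * L := by
    rcases le_or_gt (1 / (4 * (M + 4))) L with h | h
    · have h1 : 1 ≤ L * (4 * (M + 4)) := by
        rwa [div_le_iff₀ (by positivity)] at h
      nlinarith [mul_le_mul_of_nonneg_left h1 hM0]
    · have h1 : L * (4 * (M + 4)) < 1 := by
        rwa [lt_div_iff₀ (by positivity)] at h
      have hL1 : L ≤ 1 := by nlinarith
      have h2 := hD (2 * (M + 4)) (by positivity)
      have h3 : X / (2 * (M + 4)) ≤ 1 / 2 := by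
        rw [div_le_iff₀ (by positivity)]; linarith
      have h4 : 2 * a * (∫ x, d x ∂μ) ≤ 1 := by nlinarith
      have h5 := hD 4 (by norm_num)
      set Y := 2 * a * ∫ x, d x ∂μ with hY
      have hY0 : 0 ≤ Y := by
        have : 0 ≤ ∫ x, d x ∂μ := integral_nonneg hd0
        positivity
      have h6 : Real.exp Y ≤ 1 + 2 * Y := by
        have := Real.abs_exp_sub_one_le (x := Y) (by rw [abs_of_nonneg hY0]; exact h4)
        rw [abs_of_nonneg hY0] at this
        have := (abs_le.1 this).2
        linarith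
      have h7 : X ≤ 16 * (1 - q) := by linarith
      have h8 : 0 ≤ 4 * M * (M + 4) * L := by positivity
      linarith
  have ha2 : 0 < a ^ 2 := by positivity
  rw [div_mul_eq_mul_div, le_div_iff₀ ha2]
  rw [hX] at hfin
  linarith

end Pool.Agent.R972.WT
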