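import Mathlib

/-! A layer cake bound for exponentials. -/

namespace Pool.Agent.R972.WT

open MeasureTheory Set Filter Topology

theorem exp_layer {α : Type*} [MeasurableSpace α] {μ : Measure α} [IsProbabilityMeasure μ]
    {h : α → ℝ} (hm : Measurable h) (h0 : ∀ x, 0 ≤ h x) {A β : ℝ} (hA : 0 ≤ A) (hβ : 1 < β)
    (hV : ∀ t, 0 < t → μ.real {x | t ≤ h x} ≤ A * Real.exp (-(β * t))) :
    Integrable (fun x => Real.exp (h x)) μ ∧ ∫ x, Real.exp (h x) ∂μ ≤ 1 + A / (β - 1) := by
  have hneg : -(β - 1) < 0 := by linarith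
  have hI : IntegrableOn (fun t : ℝ => A * Real.exp (-(β - 1) * t)) (Ioi 0) :=
    (integrableOn_exp_mul_Ioi hneg 0).const_mul A
  have hIv : ∫ t in Ioi (0:ℝ), A * Real.exp (-(β - 1) * t) = A / (β - 1) := by
    rw [integral_const_mul, integral_exp_mul_Ioi hneg 0]
    have : β - 1 ≠ 0 := by linarith
    field_simp
    simp
  have h1 : ∫⁻ x, ENNReal.ofReal (Real.exp (h x) - 1) ∂μ ≤ ENNReal.ofReal (A / (β - 1)) := by
    have e1 : ∀ x, Real.exp (h x) - 1 = ∫ t in (0:ℝ)..(h x), Real.exp t := by
      intro x; rw [integral_exp, Real.exp_zero]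
    simp_rw [e1]
    rw [lintegral_comp_eq_lintegral_meas_le_mul μ (Eventually.of_forall h0) hm.aemeasurable
      (fun t _ => Real.continuous_exp.intervalIntegrable _ _)
      (Eventually.of_forall (fun t => (Real.exp_pos t).le))]
    rw [← hIv, ofReal_integral_eq_lintegral_ofReal hI
      (Eventually.of_forall (fun t => by positivity))]
    apply setLIntegral_mono' measurableSet_Ioi
    intro t ht
    have ht' : 0 < t := ht
    have h2 := hV t ht'
    have h3 : μ {x | t ≤ h x} ≤ ENNReal.ofReal (A * Real.exp (-(β * t))) := by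
      rw [← ofReal_measureReal (measure_ne_top μ _)]
      exact ENNReal.ofReal_le_ofReal h2
    calc μ {x | t ≤ h x} * ENNReal.ofReal (Real.exp t)
        ≤ ENNReal.ofReal (A * Real.exp (-(β * t))) * ENNReal.ofReal (Real.exp t) := by gcongr
      _ = ENNReal.ofReal (A * Real.exp (-(β - 1) * t)) := by
          rw [← ENNReal.ofReal_mul (by positivity), mul_assoc, ← Real.exp_add]
          congr 3; ring
  have hmeas : Measurable (fun x => Real.exp (h x) - 1) := (Real.measurable_exp.comp hm).sub_const 1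
  have hnn : ∀ x, 0 ≤ Real.exp (h x) - 1 := fun x => by
    have := Real.one_le_exp (h0 x); linarith
  have hint : Integrable (fun x => Real.exp (h x) - 1) μ := by
    refine ⟨hmeas.aestronglyMeasurable, ?_⟩
    rw [hasFiniteIntegral_iff_ofReal (Eventually.of_forall hnn)]
    exact h1.trans_lt ENNReal.ofReal_lt_top
  have hexp : (fun x => Real.exp (h x)) = fun x => (Real.exp (h x) - 1) + 1 := by
    ext x; ring
  have hint2 : Integrable (fun x => Real.exp (h x)) μ := by
    rw [hexp]; exact hint.add (integrable_const 1)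
  refine ⟨hint2, ?_⟩
  have h4 : ∫ x, Real.exp (h x) ∂μ = ∫ x, (Real.exp (h x) - 1) ∂μ + 1 := by
    rw [integral_sub hint2 (integrable_const 1)]; simp
  rw [h4, integral_eq_lintegral_of_nonneg_ae (Eventually.of_forall hnn) hmeas.aestronglyMeasurable]
  have h5 := ENNReal.toReal_mono ENNReal.ofReal_ne_top h1
  rw [ENNReal.toReal_ofReal (div_nonneg hA (by linarith))] at h5
  linarith

end Pool.Agent.R972.WT
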