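import Mathlib
import Pool.Agent.R972.WT.Moments

/-! Poincare inequality for envelopes of convex functions. -/

namespace Pool.Agent.R972.WT

open MeasureTheory Set Filter Topology

theorem exp_cubic_lower (y : ℝ) : 1 + y + y ^ 2 / 2 - |y| ^ 3 ≤ Real.exp y := by
  rcases le_or_gt 0 y with h | h
  · have := Real.quadratic_le_exp_of_nonneg h
    have h3 : 0 ≤ |y| ^ 3 := by positivity
    linarith
  · rw [abs_of_neg h]
    rcases le_or_gt (-1) y with h1 | h1
    · have h2 := Real.exp_bound (x := y) (by rw [abs_of_neg h]; linarith) (n := 3) (by norm_num)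
      simp only [Finset.sum_range_succ, Finset.sum_range_zero, Nat.factorial] at h2
      rw [abs_le] at h2
      have h3 := h2.1
      rw [abs_of_neg h] at h3
      have h4 : 0 ≤ (-y) ^ 3 := by have : 0 ≤ -y := by linarith
                                   positivity
      norm_num at h3
      nlinarith
    · have h3 := Real.exp_pos y
      nlinarith [mul_pos (show (0:ℝ) < -1 - y by linarith) (show (0:ℝ) < -1 - y by linarith),
        mul_pos (mul_pos (show (0:ℝ) < -1 - y by linarith) (show (0:ℝ) < -1 - y by linarith))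
          (show (0:ℝ) < -1 - y by linarith)]

variable {E : Type*} [NormedAddCommGroup E] [InnerProductSpace ℝ E] [FiniteDimensional ℝ E]
  [MeasurableSpace E] [BorelSpace E]

theorem poincare {a : ℝ} (ha : 0 < a) {μ : Measure E} [IsProbabilityMeasure μ]
    (hint : Integrable (fun x : E => ‖x‖) μ) (hT : TMinus a μ)
    {b : ℝ} (hb : 0 < b) {f : E → ℝ} (hf : ConvexOn ℝ univ f) {m : ℝ} (hm : ∀ x, m ≤ f x) :
    (∫ x, (Q b f x - ∫ z, Q b f z ∂μ) ^ 2 ∂μ)
      ≤ 2 * (b ^ 2 / a ^ 2) * ∫ x, b ^ 2 * ‖x - prox b f x‖ ^ 2 ∂μ := by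
  obtain ⟨C, hC0, hC1, hC2⟩ := Q_growth hb hf hm
  set g := Q b f with hg
  set v : E → ℝ := fun x => b ^ 2 * ‖x - prox b f x‖ ^ 2 with hv
  have hgc : Continuous g := Q_cont hb hf hm
  have hvc : Continuous v := v_cont hb hf hm
  have hv0 : ∀ x, 0 ≤ v x := fun x => by simp only [hv]; positivity
  have hgi : Integrable g μ := int_of_bound ha hint hT hgc hC1
  have hvi : Integrable v μ := int_of_bound ha hint hT hvc hC2
  set G := ∫ z, g z ∂μ with hG
  set c := b ^ 2 / a ^ 2 with hc
  have hc0 : 0 < c := by positivity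
  -- M = |g - G| + c v
  set M : E → ℝ := fun x => |g x - G| + c * v x with hM
  have hMc : Continuous M := by fun_prop
  have hM0 : ∀ x, 0 ≤ M x := fun x => by
    have := hv0 x
    simp only [hM]; positivity
  set K := C + |G| + c * C with hK
  have hK0 : 0 ≤ K := by positivity
  have hMb : ∀ x, M x ≤ K * (1 + ‖x‖) ^ 2 := by
    intro x
    have h1 := hC1 x
    have h2 := hC2 x
    have h3 : |g x - G| ≤ |g x| + |G| := abs_sub _ _
    have h4 : v x ≤ C * (1 + ‖x‖) ^ 2 := (le_abs_self _).trans h2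
    have h6 : 1 ≤ (1 + ‖x‖) ^ 2 := by nlinarith [norm_nonneg x]
    have h7 := mul_le_mul_of_nonneg_left h6 (abs_nonneg G)
    have h8 := mul_le_mul_of_nonneg_left h4 hc0.le
    simp only [hM, hK]
    nlinarith
  have hMk : ∀ k : ℕ, Integrable (fun x => M x ^ k) μ := by
    intro k
    apply int_of_bound ha hint hT (C := K ^ k) (k := 2 * k) (by fun_prop)
    intro x
    rw [abs_of_nonneg (pow_nonneg (hM0 x) k), pow_mul, ← mul_pow]
    exact pow_le_pow_left₀ (hM0 x) (hMb x) k
  have hM3 := hMk 3
  have hM2 := hMk 2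
  -- key inequality for each t
  have key : ∀ t : ℝ, 0 < t → t ≤ 1 →
      (∫ x, (g x - G) ^ 2 ∂μ) ≤ 2 * c * (∫ x, v x ∂μ) + t * (2 * ∫ x, M x ^ 3 ∂μ + 2 * ∫ x, M x ^ 2 ∂μ) := by
    intro t ht0 ht1
    have hfc : ConvexOn ℝ univ (fun x => t * g x) := by
      have := (Q_convex hb hf hm).smul ht0.le
      simpa [smul_eq_mul] using this
    have hbdd : BddBelow (range (fun x => t * g x)) :=
      ⟨t * m, by rintro _ ⟨y, rfl⟩; exact mul_le_mul_of_nonneg_left (m_le_Q b hm y) ht0.le⟩
    obtain ⟨h1, h2⟩ := hT _ hfc hbdd (hgi.const_mul t)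
    rw [integral_const_mul, ← hG] at h2
    -- lower bound for the envelope
    have h3 : ∀ x, t * g x - t ^ 2 * (c * v x) ≤ Q a (fun x => t * g x) x := by
      intro x
      apply le_Q
      intro y
      have h4 := Q_subgrad hb hf hm x y
      have h5 := mul_le_mul_of_nonneg_left h4 ht0.le
      set p := x - prox b f x with hp
      have h6 : 0 ≤ ‖(a : ℝ) • (y - x) + (t * b ^ 2 / a) • p‖ ^ 2 := sq_nonneg _
      rw [norm_add_sq_real, norm_smul, norm_smul, real_inner_smul_left, real_inner_smul_right,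
        mul_pow, mul_pow, Real.norm_eq_abs, Real.norm_eq_abs, sq_abs, sq_abs,
        real_inner_comm] at h6
      have e1 : 2 * (a * (t * b ^ 2 / a * inner ℝ p (y - x))) = t * (2 * b ^ 2 * inner ℝ p (y - x)) := by
        field_simp
      have e2 : (t * b ^ 2 / a) ^ 2 * ‖p‖ ^ 2 = t ^ 2 * (c * v x) := by
        simp only [hc, hv, ← hp]; field_simp
      rw [e1, e2] at h6
      rw [norm_sub_rev x y]
      simp only [hg]
      nlinarith
    have h4 : ∀ x, 1 + (t * (g x - G) - t ^ 2 * (c * v x))
        + (t ^ 2 * ((g x - G) ^ 2) / 2 - t ^ 3 * M x ^ 2) - t ^ 3 * M x ^ 3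
        ≤ Real.exp (-(t * G)) * Real.exp (Q a (fun x => t * g x) x) := by
      intro x
      rw [← Real.exp_add]
      set y := t * (g x - G) - t ^ 2 * (c * v x) with hy
      have h5 : Real.exp y ≤ Real.exp (-(t * G) + Q a (fun x => t * g x) x) :=
        Real.exp_le_exp.2 (by simp only [hy]; linarith [h3 x])
      have h6 := exp_cubic_lower y
      have hcv : 0 ≤ c * v x := mul_nonneg hc0.le (hv0 x)
      have h7 : |y| ≤ t * M x := by
        have : |y| ≤ |t * (g x - G)| + |t ^ 2 * (c * v x)| := abs_sub _ _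
        rw [abs_mul, abs_of_pos ht0, abs_of_nonneg (by positivity : 0 ≤ t ^ 2 * (c * v x))] at this
        have h8 : t ^ 2 * (c * v x) ≤ t * (c * v x) := by
          apply mul_le_mul_of_nonneg_right _ hcv
          nlinarith
        simp only [hM]
        linarith
      have h9 : |y| ^ 3 ≤ t ^ 3 * M x ^ 3 := by
        rw [← mul_pow]; exact pow_le_pow_left₀ (abs_nonneg _) h7 3
      have h10 : t ^ 2 * ((g x - G) ^ 2) / 2 - t ^ 3 * M x ^ 2 ≤ y ^ 2 / 2 := by
        have e : y ^ 2 = t ^ 2 * (g x - G) ^ 2 - 2 * t ^ 3 * ((g x - G) * (c * v x))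
            + t ^ 4 * (c * v x) ^ 2 := by simp only [hy]; ring
        have h11 : (g x - G) * (c * v x) ≤ M x ^ 2 := by
          have := le_abs_self (g x - G)
          have h12 : (g x - G) * (c * v x) ≤ |g x - G| * (c * v x) :=
            mul_le_mul_of_nonneg_right this hcv
          simp only [hM]
          nlinarith [abs_nonneg (g x - G), sq_nonneg (|g x - G|), mul_nonneg (abs_nonneg (g x - G)) hcv]
        have h13 : 0 ≤ t ^ 4 * (c * v x) ^ 2 := by positivity
        have h14 : t ^ 3 * ((g x - G) * (c * v x)) ≤ t ^ 3 * M x ^ 2 :=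
          mul_le_mul_of_nonneg_left h11 (by positivity)
        rw [e]; linarith
      linarith
    have i1 : Integrable (fun x => g x - G) μ := hgi.sub (integrable_const G)
    have i2 : Integrable (fun x => (g x - G) ^ 2) μ := by
      apply hM2.mono' (by fun_prop : Continuous (fun x => (g x - G) ^ 2)).aestronglyMeasurable
      refine Eventually.of_forall (fun x => ?_)
      rw [Real.norm_eq_abs, abs_of_nonneg (sq_nonneg _), ← sq_abs]
      apply pow_le_pow_left₀ (abs_nonneg _)
      have := hv0 x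
      simp only [hM]
      have : 0 ≤ c * v x := by positivity
      linarith
    have h5 := integral_mono (μ := μ) (f := fun x => 1 + (t * (g x - G) - t ^ 2 * (c * v x))
        + (t ^ 2 * ((g x - G) ^ 2) / 2 - t ^ 3 * M x ^ 2) - t ^ 3 * M x ^ 3)
        (g := fun x => Real.exp (-(t * G)) * Real.exp (Q a (fun x => t * g x) x))
        ((((integrable_const 1).add ((i1.const_mul t).sub ((hvi.const_mul c).const_mul (t ^ 2)))).add
          (((i2.const_mul (t ^ 2)).div_const 2).sub (hM2.const_mul (t ^ 3)))).sub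
            (hM3.const_mul (t ^ 3))) (h1.const_mul _) h4
    rw [integral_const_mul] at h5
    have h6 : Real.exp (-(t * G)) * ∫ x, Real.exp (Q a (fun x => t * g x) x) ∂μ ≤ 1 := by
      calc Real.exp (-(t * G)) * ∫ x, Real.exp (Q a (fun x => t * g x) x) ∂μ
          ≤ Real.exp (-(t * G)) * Real.exp (t * G) :=
            mul_le_mul_of_nonneg_left h2 (Real.exp_pos _).le
        _ = 1 := by rw [← Real.exp_add]; simp
    have h7 : ∫ x, (1 + (t * (g x - G) - t ^ 2 * (c * v x))
        + (t ^ 2 * ((g x - G) ^ 2) / 2 - t ^ 3 * M x ^ 2) - t ^ 3 * M x ^ 3) ∂μ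
        = 1 + (0 - t ^ 2 * (c * ∫ x, v x ∂μ))
          + (t ^ 2 * (∫ x, (g x - G) ^ 2 ∂μ) / 2 - t ^ 3 * ∫ x, M x ^ 2 ∂μ)
            - t ^ 3 * ∫ x, M x ^ 3 ∂μ := by
      rw [integral_sub, integral_add, integral_add, integral_sub, integral_sub, integral_const_mul,
        integral_const_mul, integral_const_mul, integral_div, integral_const_mul,
        integral_const_mul, integral_const_mul, integral_sub hgi (integrable_const G)]
      · simp only [integral_const_mul, integral_const, hG]
        simp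
      · exact (i2.const_mul (t ^ 2)).div_const 2
      · exact hM2.const_mul (t ^ 3)
      · exact i1.const_mul t
      · exact (hvi.const_mul c).const_mul (t ^ 2)
      · exact integrable_const 1
      · exact (i1.const_mul t).sub ((hvi.const_mul c).const_mul (t ^ 2))
      · exact (integrable_const 1).add ((i1.const_mul t).sub ((hvi.const_mul c).const_mul (t ^ 2)))
      · exact ((i2.const_mul (t ^ 2)).div_const 2).sub (hM2.const_mul (t ^ 3))
      · exact ((integrable_const 1).add ((i1.const_mul t).sub ((hvi.const_mul c).const_mul (t ^ 2)))).add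
          (((i2.const_mul (t ^ 2)).div_const 2).sub (hM2.const_mul (t ^ 3)))
      · exact hM3.const_mul (t ^ 3)
    rw [h7] at h5
    have h8 : t ^ 2 * (∫ x, (g x - G) ^ 2 ∂μ)
        ≤ t ^ 2 * (2 * c * (∫ x, v x ∂μ) + t * (2 * ∫ x, M x ^ 3 ∂μ + 2 * ∫ x, M x ^ 2 ∂μ)) := by
      nlinarith [h5, h6]
    exact le_of_mul_le_mul_left h8 (by positivity)
  set L := 2 * ∫ x, M x ^ 3 ∂μ + 2 * ∫ x, M x ^ 2 ∂μ with hL
  have hL0 : 0 ≤ L := by
    have h1 : 0 ≤ ∫ x, M x ^ 3 ∂μ := integral_nonneg (fun x => pow_nonneg (hM0 x) 3)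
    have h2 : 0 ≤ ∫ x, M x ^ 2 ∂μ := integral_nonneg (fun x => pow_nonneg (hM0 x) 2)
    positivity
  apply le_of_forall_pos_le_add
  intro e he
  have ht : 0 < min 1 (e / (L + 1)) := lt_min one_pos (by positivity)
  have := key _ ht (min_le_left _ _)
  have h9 : min 1 (e / (L + 1)) * L ≤ e := by
    calc min 1 (e / (L + 1)) * L ≤ e / (L + 1) * L :=
          mul_le_mul_of_nonneg_right (min_le_right _ _) hL0
      _ ≤ e := by
        rw [div_mul_eq_mul_div, div_le_iff₀ (by positivity)]
        nlinarith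
  linarith

end Pool.Agent.R972.WT
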