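import Mathlib
import Pool.Agent.R972.WT.Poinc
import Pool.Agent.R972.WT.Dist
import Pool.Agent.R972.WT.Layer

/-! The weak transport inequality `T^-` implies `T^+` in every dimension (dual forms). -/

namespace Pool.Agent.R972.WT

open MeasureTheory Set Filter Topology

variable {E : Type*} [NormedAddCommGroup E] [InnerProductSpace ℝ E] [FiniteDimensional ℝ E]
  [MeasurableSpace E] [BorelSpace E]

theorem exp_quad_upper {u : ℝ} (hu : u ≤ 1) : Real.exp u ≤ 1 + u + u ^ 2 := by
  rcases le_or_gt (-1) u with h | h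
  · have := Real.abs_exp_sub_one_sub_id_le (x := u) (abs_le.2 ⟨h, hu⟩)
    have := (abs_le.1 this).2
    linarith
  · have : Real.exp u ≤ 1 := Real.exp_le_one_iff.2 (by linarith)
    nlinarith

theorem int_exp_neg {μ : Measure E} [IsProbabilityMeasure μ] {f : E → ℝ}
    (hf : Continuous f) {m : ℝ} (hm : ∀ x, m ≤ f x) : Integrable (fun x => Real.exp (-f x)) μ := by
  apply (integrable_const (μ := μ) (Real.exp (-m))).mono'
  · exact (by fun_prop : Continuous (fun x => Real.exp (-f x))).aestronglyMeasurable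
  · exact Eventually.of_forall (fun x => by
      rw [Real.norm_eq_abs, abs_of_pos (Real.exp_pos _)]
      exact Real.exp_le_exp.2 (by linarith [hm x]))

theorem regimeI {a : ℝ} (ha : 0 < a) {μ : Measure E} [IsProbabilityMeasure μ]
    (hint : Integrable (fun x : E => ‖x‖) μ) (hT : TMinus a μ)
    {b : ℝ} (hb : 0 < b) (hab : 80 * b ^ 2 ≤ a ^ 2) {f : E → ℝ} (hf : ConvexOn ℝ univ f) {m : ℝ}
    (hm : ∀ x, m ≤ f x) (hsmall : ∫ x, Q b f x ∂μ ≤ m + 1 / 8) :
    Real.exp (∫ x, Q b f x ∂μ) * ∫ x, Real.exp (-f x) ∂μ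
      ≤ 1 - 1 / 4 * ∫ x, b ^ 2 * ‖x - prox b f x‖ ^ 2 ∂μ := by
  obtain ⟨C, hC0, hC1, hC2⟩ := Q_growth hb hf hm
  have hP := poincare ha hint hT hb hf hm
  have hstr := Q_add_v_le hb hf hm
  have hvle := v_le hb hf hm
  have hgm := m_le_Q b hm
  have hgc : Continuous (Q b f) := Q_cont hb hf hm
  have hvc := v_cont hb hf hm
  set g := Q b f with hg
  set v : E → ℝ := fun x => b ^ 2 * ‖x - prox b f x‖ ^ 2 with hv
  have hv0 : ∀ x, 0 ≤ v x := fun x => by simp only [hv]; positivity
  have hgi : Integrable g μ := int_of_bound ha hint hT hgc hC1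
  have hvi : Integrable v μ := int_of_bound ha hint hT hvc hC2
  set G := ∫ z, g z ∂μ with hG
  have hg2i : Integrable (fun x => (g x - G) ^ 2) μ := by
    apply int_of_bound ha hint hT (C := (C + |G|) ^ 2) (k := 4) (by fun_prop)
    intro x
    rw [abs_of_nonneg (sq_nonneg _), ← sq_abs, (by norm_num : (4:ℕ) = 2 * 2), pow_mul, ← mul_pow]
    apply pow_le_pow_left₀ (abs_nonneg _)
    have h3 : |g x - G| ≤ |g x| + |G| := abs_sub _ _
    have h6 : 1 ≤ (1 + ‖x‖) ^ 2 := by nlinarith [norm_nonneg x]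
    have h7 := mul_le_mul_of_nonneg_left h6 (abs_nonneg G)
    have := hC1 x
    nlinarith
  have hpt : ∀ x, Real.exp G * Real.exp (-f x) ≤ 1 - (g x - G) - v x / 2 + 10 * (g x - G) ^ 2 := by
    intro x
    have h1 := hstr x
    have h2 := hvle x
    have h3 := hgm x
    have h4 := hv0 x
    rw [← Real.exp_add]
    set w := (g x - G) + v x with hw
    have h5 : Real.exp (G + -f x) ≤ Real.exp (-w) := Real.exp_le_exp.2 (by
      simp only [hw]; simp only [hv, hg]; linarith)
    have h6 := exp_quad_upper (u := -w) (by simp only [hw]; linarith)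
    have h7 : v x ^ 2 ≤ v x / 4 + 4 * (g x - G) ^ 2 := by
      have h8 : v x ≤ (g x - G) + 1 / 8 := by
        have : v x ≤ g x - m := h2
        linarith
      rcases le_or_gt (v x) (1 / 4) with h9 | h9
      · nlinarith [sq_nonneg (g x - G)]
      · nlinarith [sq_nonneg (g x - G)]
    have h10 : (-w) ^ 2 ≤ 2 * (g x - G) ^ 2 + 2 * v x ^ 2 := by
      simp only [hw]; nlinarith [sq_nonneg (g x - G - v x)]
    have h11 : -w = - (g x - G) - v x := by simp only [hw]; ring
    nlinarith
  have hi := int_exp_neg (μ := μ) (cont_of_convex hf) hm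
  have i1 : Integrable (fun x => g x - G) μ := hgi.sub (integrable_const G)
  rw [← integral_const_mul]
  calc ∫ x, Real.exp G * Real.exp (-f x) ∂μ
      ≤ ∫ x, (1 - (g x - G) - v x / 2 + 10 * (g x - G) ^ 2) ∂μ :=
        integral_mono (hi.const_mul _)
          ((((integrable_const 1).sub i1).sub (hvi.div_const 2)).add (hg2i.const_mul 10)) hpt
    _ = 1 - 0 - (∫ x, v x ∂μ) / 2 + 10 * ∫ x, (g x - G) ^ 2 ∂μ := by
        have e1 : ∫ x, (g x - G) ∂μ = 0 := by
          rw [integral_sub hgi (integrable_const G)]; simp [hG]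
        rw [integral_add, integral_sub, integral_sub, e1, integral_div, integral_const_mul]
        · simp [integral_const_mul]
        · exact integrable_const 1
        · exact i1
        · exact (integrable_const 1).sub i1
        · exact hvi.div_const 2
        · exact ((integrable_const 1).sub i1).sub (hvi.div_const 2)
        · exact hg2i.const_mul 10
    _ ≤ 1 - 1 / 4 * ∫ x, v x ∂μ := by
        have hv1 : 0 ≤ ∫ x, v x ∂μ := integral_nonneg hv0
        have h12 : b ^ 2 / a ^ 2 ≤ 1 / 80 := by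
          rw [div_le_div_iff₀ (by positivity) (by norm_num)]; linarith
        have h13 : 2 * (b ^ 2 / a ^ 2) * ∫ x, v x ∂μ ≤ 2 * (1 / 80) * ∫ x, v x ∂μ := by
          gcongr
        linarith

theorem Q_le_sub {b : ℝ} {f : E → ℝ} (hf : ConvexOn ℝ univ f) {m : ℝ}
    (hm : ∀ x, m ≤ f x) {s : ℝ} (hne : {x | f x ≤ s}.Nonempty) (x : E) :
    Q b f x ≤ s + b ^ 2 * Metric.infDist x {x | f x ≤ s} ^ 2 := by
  have hcl : IsClosed {x | f x ≤ s} := isClosed_le (cont_of_convex hf) continuous_const
  obtain ⟨p, hp, hp'⟩ := hcl.exists_infDist_eq_dist hne x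
  rw [hp', dist_eq_norm]
  have := Q_le b hm x p
  have hp2 : f p ≤ s := hp
  linarith

theorem U_bound {κ : ℝ} {μ : Measure E} [IsProbabilityMeasure μ]
    (hκ : ∀ B : Set E, IsClosed B → Convex ℝ B → 0 < μ.real B →
      Integrable (fun x => Metric.infDist x B ^ 2) μ ∧
      ∫ x, Metric.infDist x B ^ 2 ∂μ ≤ κ * Real.log (1 / μ.real B))
    {b : ℝ} (hb : 0 < b) {f : E → ℝ} (hf : ConvexOn ℝ univ f) {m : ℝ}
    (hm : ∀ x, m ≤ f x) (hgi : Integrable (Q b f) μ) {s : ℝ} (hs : 0 < μ.real {x | f x ≤ s}) :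
    ∫ x, Q b f x ∂μ ≤ s + κ * b ^ 2 * Real.log (1 / μ.real {x | f x ≤ s}) := by
  have hcl : IsClosed {x | f x ≤ s} := isClosed_le (cont_of_convex hf) continuous_const
  have hcv : Convex ℝ {x | f x ≤ s} := by
    have := hf.convex_le s
    simpa using this
  have hne : {x | f x ≤ s}.Nonempty := by
    by_contra h
    rw [not_nonempty_iff_eq_empty] at h
    rw [h] at hs; simp at hs
  obtain ⟨h1, h2⟩ := hκ _ hcl hcv hs
  calc ∫ x, Q b f x ∂μ ≤ ∫ x, (s + b ^ 2 * Metric.infDist x {x | f x ≤ s} ^ 2) ∂μ :=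
        integral_mono hgi ((integrable_const s).add (h1.const_mul _)) (Q_le_sub hf hm hne)
    _ = s + b ^ 2 * ∫ x, Metric.infDist x {x | f x ≤ s} ^ 2 ∂μ := by
        rw [integral_add (integrable_const s) (h1.const_mul _), integral_const_mul]; simp
    _ ≤ s + b ^ 2 * (κ * Real.log (1 / μ.real {x | f x ≤ s})) := by gcongr
    _ = _ := by ring

theorem Z_bound {μ : Measure E} [IsProbabilityMeasure μ] {f : E → ℝ} (hf : Continuous f)
    {m : ℝ} (hm : ∀ x, m ≤ f x) {t J : ℝ} (ht0 : 0 < t) (ht1 : t ≤ 1 / 2)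
    (hJ : ∀ r, 0 < μ.real {x | f x ≤ r} → J ≤ r + t * Real.log (1 / μ.real {x | f x ≤ r})) :
    (∀ r, μ.real {x | f x ≤ r} ≤ Real.exp ((r - J) / t)) ∧
    ∫ x, Real.exp (-f x) ∂μ ≤ Real.exp (-J + 2 * t) := by
  have hV : ∀ r, μ.real {x | f x ≤ r} ≤ Real.exp ((r - J) / t) := by
    intro r
    rcases (measureReal_nonneg (μ := μ) (s := {x | f x ≤ r})).eq_or_lt with h | h
    · rw [← h]; exact (Real.exp_pos _).le
    · have h1 := hJ r h
      rw [← Real.log_le_iff_le_exp h, le_div_iff₀ ht0]
      rw [one_div, Real.log_inv] at h1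
      linarith
  refine ⟨hV, ?_⟩
  obtain ⟨h1, h2⟩ := exp_layer (μ := μ) (h := fun x => max (J - f x) 0) (A := 1) (β := 1 / t)
    (by fun_prop) (fun x => le_max_right _ _) zero_le_one
    (by rw [lt_div_iff₀ ht0]; linarith) (by
      intro u hu
      have e : {x | u ≤ max (J - f x) 0} = {x | f x ≤ J - u} := by
        ext x
        show u ≤ max (J - f x) 0 ↔ f x ≤ J - u
        rw [le_max_iff]
        constructor
        · rintro (h | h) <;> linarith
        · intro h; left; linarith
      rw [e, one_mul]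
      refine (hV _).trans (Real.exp_le_exp.2 (le_of_eq ?_))
      field_simp
      ring)
  have h3 : ∀ x, Real.exp (-f x) ≤ Real.exp (-J) * Real.exp (max (J - f x) 0) := by
    intro x
    rw [← Real.exp_add]
    apply Real.exp_le_exp.2
    have := le_max_left (J - f x) 0
    linarith
  have h4 : 1 + 1 / (1 / t - 1) ≤ Real.exp (2 * t) := by
    have e : 1 + 1 / (1 / t - 1) = 1 / (1 - t) := by
      have h5 : 1 - t ≠ 0 := by linarith
      have h6 : 1 / t - 1 ≠ 0 := by
        have : 1 < 1 / t := by rw [lt_div_iff₀ ht0]; linarith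
        linarith
      field_simp
      ring
    rw [e, div_le_iff₀ (by linarith)]
    have := Real.add_one_le_exp (2 * t)
    nlinarith
  calc ∫ x, Real.exp (-f x) ∂μ ≤ ∫ x, Real.exp (-J) * Real.exp (max (J - f x) 0) ∂μ :=
        integral_mono (int_exp_neg hf hm) (h1.const_mul _) h3
    _ = Real.exp (-J) * ∫ x, Real.exp (max (J - f x) 0) ∂μ := integral_const_mul _ _
    _ ≤ Real.exp (-J) * Real.exp (2 * t) := by
        apply mul_le_mul_of_nonneg_left (h2.trans h4) (Real.exp_pos _).le
    _ = _ := by rw [← Real.exp_add]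

/-- The core estimate: `T^-` with constant `a` implies `T^+` with some constant `b`. -/
theorem tplus_of_tminus {a : ℝ} (ha : 0 < a) {μ : Measure E} [IsProbabilityMeasure μ]
    (hint : Integrable (fun x : E => ‖x‖) μ) (hT : TMinus a μ) :
    ∃ b : ℝ, 0 < b ∧ b ≤ a ∧ TPlus b μ := by
  obtain ⟨κ, hκ0, hκ⟩ := dist_bound ha hint hT
  set b := Real.sqrt (min (a ^ 2 / 80) (1 / (10 ^ 7 * κ))) with hbdef
  have hmin : 0 < min (a ^ 2 / 80) (1 / (10 ^ 7 * κ)) := lt_min (by positivity) (by positivity)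
  have hb : 0 < b := Real.sqrt_pos.2 hmin
  have hb2 : b ^ 2 = min (a ^ 2 / 80) (1 / (10 ^ 7 * κ)) := Real.sq_sqrt hmin.le
  have hab : 80 * b ^ 2 ≤ a ^ 2 := by
    have := min_le_left (a ^ 2 / 80) (1 / (10 ^ 7 * κ))
    rw [← hb2] at this; linarith
  set ε := κ * b ^ 2 with hε
  have hε0 : 0 < ε := by positivity
  have hε1 : ε ≤ 1 / 10 ^ 7 := by
    have := min_le_right (a ^ 2 / 80) (1 / (10 ^ 7 * κ))
    rw [← hb2] at this
    calc ε = κ * b ^ 2 := rfl
      _ ≤ κ * (1 / (10 ^ 7 * κ)) := mul_le_mul_of_nonneg_left this hκ0.le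
      _ = 1 / 10 ^ 7 := by field_simp
  refine ⟨b, hb, ?_, ?_⟩
  · have : b ^ 2 ≤ a ^ 2 := by nlinarith [sq_nonneg b]
    exact (pow_le_pow_iff_left₀ hb.le ha.le two_ne_zero).1 this
  intro f hf hbdd
  obtain ⟨m, hm'⟩ := hbdd
  have hm : ∀ x, m ≤ f x := fun x => hm' ⟨x, rfl⟩
  have hfc := cont_of_convex hf
  obtain ⟨C, hC0, hC1, hC2⟩ := Q_growth hb hf hm
  have hgi : Integrable (Q b f) μ := int_of_bound ha hint hT (Q_cont hb hf hm) hC1
  refine ⟨hgi, ?_⟩
  set V : ℝ → ℝ := fun r => μ.real {x | f x ≤ r} with hV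
  have hV0 : ∀ r, 0 ≤ V r := fun r => measureReal_nonneg
  have hV1 : ∀ r, V r ≤ 1 := fun r => measureReal_le_one
  have hlog0 : ∀ r, 0 < V r → 0 ≤ Real.log (1 / V r) := fun r hr => by
    rw [one_div, Real.log_inv]
    have := Real.log_nonpos hr.le (hV1 r)
    linarith
  -- nonemptiness
  have hexN : ∃ r, 0 < V r := by
    by_contra hcon
    push Not at hcon
    have h1 : ∀ N : ℕ, μ {x | f x ≤ N} = 0 := fun N => by
      have := le_antisymm (hcon N) (hV0 N)
      simpa [hV, measureReal_eq_zero_iff] using this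
    have h2 : μ univ = 0 := by
      have e : (univ : Set E) = ⋃ N : ℕ, {x | f x ≤ N} := by
        ext x
        simp only [mem_univ, mem_iUnion, true_iff]
        obtain ⟨N, hN⟩ := exists_nat_ge (f x)
        exact ⟨N, hN⟩
      rw [e]; exact measure_iUnion_null h1
    simp at h2
  have hrm : ∀ r, 0 < V r → m ≤ r := by
    intro r hr
    by_contra h
    push Not at h
    have : {x | f x ≤ r} = ∅ := by
      rw [eq_empty_iff_forall_notMem]
      intro x hx
      have h1 : f x ≤ r := hx
      have := hm x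
      linarith
    simp only [hV] at hr
    rw [this] at hr
    simp at hr
  set J : ℝ → ℝ := fun t => sInf ((fun r => r + t * Real.log (1 / V r)) '' {r | 0 < V r}) with hJ
  have hbb : ∀ t, 0 ≤ t → BddBelow ((fun r => r + t * Real.log (1 / V r)) '' {r | 0 < V r}) := by
    intro t ht
    refine ⟨m, ?_⟩
    rintro _ ⟨r, hr, rfl⟩
    have h1 := hrm r hr
    have h2 := mul_nonneg ht (hlog0 r hr)
    simp only
    linarith
  have hne : ∀ t, ((fun r => r + t * Real.log (1 / V r)) '' {r | 0 < V r}).Nonempty := by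
    intro t
    obtain ⟨r, hr⟩ := hexN
    exact ⟨_, r, hr, rfl⟩
  have hJle : ∀ t, 0 ≤ t → ∀ r, 0 < V r → J t ≤ r + t * Real.log (1 / V r) := fun t ht r hr =>
    csInf_le (hbb t ht) ⟨r, hr, rfl⟩
  have hUJ : ∫ x, Q b f x ∂μ ≤ J ε := by
    apply le_csInf (hne ε)
    rintro _ ⟨r, hr, rfl⟩
    exact U_bound hκ hb hf hm hgi hr
  rcases le_or_gt (J ε + 4 * ε) (J (2 * ε)) with hcase | hcase
  · -- Case 1
    obtain ⟨-, h2⟩ := Z_bound hfc hm (t := 2 * ε) (J := J (2 * ε)) (by positivity)
      (by norm_num at hε1 ⊢; linarith) (hJle (2 * ε) (by positivity))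
    calc Real.exp (∫ x, Q b f x ∂μ) * ∫ x, Real.exp (-f x) ∂μ
        ≤ Real.exp (J ε) * Real.exp (-J (2 * ε) + 2 * (2 * ε)) := by
          apply mul_le_mul (Real.exp_le_exp.2 hUJ) h2
            (integral_nonneg (fun x => (Real.exp_pos _).le)) (Real.exp_pos _).le
      _ = Real.exp (J ε + (-J (2 * ε) + 2 * (2 * ε))) := (Real.exp_add _ _).symm
      _ ≤ 1 := Real.exp_le_one_iff.2 (by linarith)
  -- Case 2
  obtain ⟨_, ⟨s, hs, rfl⟩, hs2⟩ := exists_lt_of_csInf_lt (hne (2 * ε)) hcase
  simp only at hs2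
  have hs' : 0 < V s := hs
  set L := Real.log (1 / V s) with hL
  have hL0 : 0 ≤ L := hlog0 s hs'
  have hJs := hJle ε hε0.le s hs'
  have hL4 : L < 4 := by
    have h1 : ε * L < ε * 4 := by linarith
    exact lt_of_mul_lt_mul_left h1 hε0.le
  have hsJ : s < J ε + 4 * ε := by nlinarith [mul_nonneg hε0.le hL0]
  obtain ⟨hVexp, hZ⟩ := Z_bound hfc hm (t := ε) (J := J ε) hε0
    (by norm_num at hε1 ⊢; linarith) (hJle ε hε0.le)
  have hVs : ∀ r, V r ≤ Real.exp ((r - s) / ε + 4) := by
    intro r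
    refine (hVexp r).trans (Real.exp_le_exp.2 ?_)
    have : (r - s) / ε + 4 = (r - s + 4 * ε) / ε := by field_simp
    rw [this]
    gcongr
    linarith
  have hZs : ∫ x, Real.exp (-f x) ∂μ ≤ Real.exp (-s + 6 * ε) :=
    hZ.trans (Real.exp_le_exp.2 (by linarith))
  -- truncated function
  set c := s - 1 / 16 with hc
  set f' : E → ℝ := fun x => max (f x) c with hf'
  have hf'c : ConvexOn ℝ univ f' := hf.sup (convexOn_const c convex_univ)
  have hm2 : ∀ x, c ≤ f' x := fun x => le_max_right _ _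
  have hff' : ∀ x, f x ≤ f' x := fun x => le_max_left _ _
  obtain ⟨C', hC0', hC1', hC2'⟩ := Q_growth hb hf'c hm2
  have hgi' : Integrable (Q b f') μ := int_of_bound ha hint hT (Q_cont hb hf'c hm2) hC1'
  have hvi' : Integrable (fun x => b ^ 2 * ‖x - prox b f' x‖ ^ 2) μ :=
    int_of_bound ha hint hT (v_cont hb hf'c hm2) hC2'
  have hgg' : ∀ x, Q b f x ≤ Q b f' x := Q_mono b hm hff'
  have hset : {x | f' x ≤ s} = {x | f x ≤ s} := by
    ext x
    show max (f x) c ≤ s ↔ f x ≤ s
    rw [max_le_iff]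
    constructor
    · exact fun h => h.1
    · exact fun h => ⟨h, by linarith⟩
  have hU' : ∫ x, Q b f' x ∂μ ≤ s + 4 * ε := by
    have h1 := U_bound hκ hb hf'c hm2 hgi' (s := s) (by rw [hset]; exact hs')
    rw [hset] at h1
    have h2 : κ * b ^ 2 * Real.log (1 / μ.real {x | f x ≤ s}) ≤ ε * 4 :=
      mul_le_mul_of_nonneg_left hL4.le hε0.le
    linarith
  have hgle : ∫ x, Q b f x ∂μ ≤ ∫ x, Q b f' x ∂μ := integral_mono hgi hgi' hgg'
  have hεs : ε ≤ 1 / 1000 := hε1.trans (by norm_num)
  have hR := regimeI ha hint hT hb hab hf'c hm2 (by linarith)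
  set v' : E → ℝ := fun x => b ^ 2 * ‖x - prox b f' x‖ ^ 2 with hv'
  have hv0' : ∀ x, 0 ≤ v' x := fun x => by simp only [hv']; positivity
  set G : Set E := {x | s - 1 / 32 ≤ Q b f' x} with hG
  have hGm : MeasurableSet G :=
    (isClosed_le continuous_const (Q_cont hb hf'c hm2)).measurableSet
  rcases lt_or_ge (μ.real G) (1 / 2) with hGs | hGs
  · -- the envelope is small on half of the mass
    have hcl : IsClosed {x | f x ≤ s} := isClosed_le hfc continuous_const
    have hcv : Convex ℝ {x | f x ≤ s} := by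
      have := hf.convex_le s
      simpa using this
    have hnes : {x | f' x ≤ s}.Nonempty := by
      rw [hset]
      by_contra h
      rw [not_nonempty_iff_eq_empty] at h
      simp only [hV] at hs'
      rw [h] at hs'; simp at hs'
    obtain ⟨i1, i2⟩ := hκ _ hcl hcv hs'
    have h3 : ∫ x, Q b f' x ∂μ ≤ ∫ x, (s + b ^ 2 * Metric.infDist x {x | f x ≤ s} ^ 2
        - Gᶜ.indicator (fun _ => (1 / 32 : ℝ)) x) ∂μ := by
      apply integral_mono hgi' (((integrable_const s).add (i1.const_mul _)).sub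
        ((integrable_const _).indicator hGm.compl))
      intro x
      show Q b f' x ≤ s + b ^ 2 * Metric.infDist x {x | f x ≤ s} ^ 2
        - Gᶜ.indicator (fun _ => (1 / 32 : ℝ)) x
      by_cases hx : x ∈ G
      · rw [indicator_of_notMem (by simpa using hx)]
        have := Q_le_sub hf'c hm2 hnes (b := b) x
        rw [hset] at this
        linarith
      · rw [indicator_of_mem (by simpa using hx)]
        have h4 : Q b f' x < s - 1 / 32 := by
          by_contra h5
          push Not at h5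
          exact hx h5
        have : 0 ≤ b ^ 2 * Metric.infDist x {x | f x ≤ s} ^ 2 := by positivity
        linarith
    have h4 : ∫ x, (s + b ^ 2 * Metric.infDist x {x | f x ≤ s} ^ 2
        - Gᶜ.indicator (fun _ => (1 / 32 : ℝ)) x) ∂μ
        = s + b ^ 2 * (∫ x, Metric.infDist x {x | f x ≤ s} ^ 2 ∂μ) - (1 - μ.real G) * (1 / 32) := by
      rw [integral_sub, integral_add, integral_const_mul, integral_indicator_const _ hGm.compl,
        probReal_compl_eq_one_sub hGm, smul_eq_mul]
      · simp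
      · exact integrable_const s
      · exact i1.const_mul _
      · exact (integrable_const s).add (i1.const_mul _)
      · exact (integrable_const _).indicator hGm.compl
    have h5 : b ^ 2 * (∫ x, Metric.infDist x {x | f x ≤ s} ^ 2 ∂μ) ≤ 4 * ε := by
      calc b ^ 2 * (∫ x, Metric.infDist x {x | f x ≤ s} ^ 2 ∂μ) ≤ b ^ 2 * (κ * L) := by
            gcongr
        _ = ε * L := by rw [hε]; ring
        _ ≤ ε * 4 := mul_le_mul_of_nonneg_left hL4.le hε0.le
        _ = 4 * ε := by ring
    have h6 : ∫ x, Q b f x ∂μ ≤ s + 4 * ε - 1 / 64 := by linarith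
    calc Real.exp (∫ x, Q b f x ∂μ) * ∫ x, Real.exp (-f x) ∂μ
        ≤ Real.exp (s + 4 * ε - 1 / 64) * Real.exp (-s + 6 * ε) := by
          apply mul_le_mul (Real.exp_le_exp.2 h6) hZs
            (integral_nonneg (fun x => (Real.exp_pos _).le)) (Real.exp_pos _).le
      _ = Real.exp ((s + 4 * ε - 1 / 64) + (-s + 6 * ε)) := (Real.exp_add _ _).symm
      _ ≤ 1 := Real.exp_le_one_iff.2 (by linarith)
  · -- main case
    set p := V c with hp
    have hp0 : 0 ≤ p := hV0 c
    have hp1 : p ≤ 1 := hV1 c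
    have hinv : 2 * ε ≤ 1 / 4 := by linarith
    -- error term
    obtain ⟨h1, h2⟩ := exp_layer (μ := μ) (h := fun x => max (c - f x) 0)
      (A := Real.sqrt p * Real.exp 2) (β := 2)
      (by fun_prop) (fun x => le_max_right _ _) (by positivity) (by norm_num) (by
        intro u hu
        have e : {x | u ≤ max (c - f x) 0} = {x | f x ≤ c - u} := by
          ext x
          show u ≤ max (c - f x) 0 ↔ f x ≤ c - u
          rw [le_max_iff]
          constructor
          · rintro (h | h) <;> linarith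
          · intro h; left; linarith
        rw [e]
        have h3 : V (c - u) ≤ p := by
          apply measureReal_mono _ (measure_ne_top μ _)
          intro x hx
          have : f x ≤ c - u := hx
          show f x ≤ c
          linarith
        have h4 := hVs (c - u)
        have h5 : V (c - u) ≤ Real.sqrt p * Real.sqrt (Real.exp ((c - u - s) / ε + 4)) := by
          rw [← Real.sqrt_mul hp0]
          apply Real.le_sqrt_of_sq_le
          rw [sq]
          exact mul_le_mul h3 h4 (hV0 _) hp0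
        have h6 : Real.sqrt (Real.exp ((c - u - s) / ε + 4)) ≤ Real.exp 2 * Real.exp (-(2 * u)) := by
          rw [← Real.exp_add, Real.sqrt_eq_rpow, ← Real.exp_mul]
          apply Real.exp_le_exp.2
          have h7 : (c - u - s) / ε ≤ -(4 * u) := by
            rw [div_le_iff₀ hε0]
            have : 4 * u * ε ≤ u := by nlinarith
            linarith
          linarith
        calc μ.real {x | f x ≤ c - u} ≤ _ := h5
          _ ≤ Real.sqrt p * (Real.exp 2 * Real.exp (-(2 * u))) :=
              mul_le_mul_of_nonneg_left h6 (Real.sqrt_nonneg _)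
          _ = _ := by ring)
    have hi' := int_exp_neg (μ := μ) (cont_of_convex hf'c) hm2
    have hZ' : ∫ x, Real.exp (-f x) ∂μ
        ≤ ∫ x, Real.exp (-f' x) ∂μ + Real.exp (-c) * (Real.sqrt p * Real.exp 2) := by
      have e1 : ∀ x, Real.exp (-f x)
          = Real.exp (-f' x) + Real.exp (-c) * (Real.exp (max (c - f x) 0) - 1) := by
        intro x
        simp only [hf']
        rcases le_total c (f x) with h | h
        · rw [max_eq_left h, max_eq_right (by linarith : c - f x ≤ 0), Real.exp_zero]; ring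
        · rw [max_eq_right h, max_eq_left (by linarith : 0 ≤ c - f x), mul_sub, ← Real.exp_add]
          have : -c + (c - f x) = -f x := by ring
          rw [this]; ring
      have e2 : ∫ x, Real.exp (-f x) ∂μ = ∫ x, Real.exp (-f' x) ∂μ
          + Real.exp (-c) * (∫ x, Real.exp (max (c - f x) 0) ∂μ - 1) := by
        have e3 : ∫ x, (Real.exp (max (c - f x) 0) - 1) ∂μ
            = ∫ x, Real.exp (max (c - f x) 0) ∂μ - 1 := by
          rw [integral_sub h1 (integrable_const 1)]; simp
        have i4 : Integrable (fun x => Real.exp (-c) * (Real.exp (max (c - f x) 0) - 1)) μ :=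
          (h1.sub (integrable_const 1)).const_mul _
        rw [← e3, ← integral_const_mul, ← integral_add hi' i4]
        exact integral_congr_ae (Eventually.of_forall e1)
      rw [e2]
      have h2' : ∫ x, Real.exp (max (c - f x) 0) ∂μ - 1 ≤ Real.sqrt p * Real.exp 2 := by
        have : Real.sqrt p * Real.exp 2 / (2 - 1) = Real.sqrt p * Real.exp 2 := by norm_num
        rw [this] at h2; linarith
      have := mul_le_mul_of_nonneg_left h2' (Real.exp_pos (-c)).le
      linarith
    -- combine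
    have hexp3 : Real.exp 3 ≤ 21 := by
      have h3 : Real.exp 3 = Real.exp 1 ^ 3 := by rw [← Real.exp_nat_mul]; norm_num
      rw [h3]
      have h4 := Real.exp_one_lt_d9
      calc Real.exp 1 ^ 3 ≤ 2.7182818286 ^ 3 := pow_le_pow_left₀ (Real.exp_pos _).le h4.le 3
        _ ≤ 21 := by norm_num
    have hcomb : Real.exp (∫ x, Q b f x ∂μ) * ∫ x, Real.exp (-f x) ∂μ
        ≤ 1 - 1 / 4 * (∫ x, v' x ∂μ) + 21 * Real.sqrt p := by
      calc Real.exp (∫ x, Q b f x ∂μ) * ∫ x, Real.exp (-f x) ∂μ
          ≤ Real.exp (∫ x, Q b f' x ∂μ)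
            * (∫ x, Real.exp (-f' x) ∂μ + Real.exp (-c) * (Real.sqrt p * Real.exp 2)) := by
            apply mul_le_mul (Real.exp_le_exp.2 hgle) hZ'
              (integral_nonneg (fun x => (Real.exp_pos _).le)) (Real.exp_pos _).le
        _ = Real.exp (∫ x, Q b f' x ∂μ) * (∫ x, Real.exp (-f' x) ∂μ)
            + Real.exp ((∫ x, Q b f' x ∂μ) + -c + 2) * Real.sqrt p := by
            rw [Real.exp_add, Real.exp_add]; ring
        _ ≤ (1 - 1 / 4 * (∫ x, v' x ∂μ)) + 21 * Real.sqrt p := by
            have h3 : Real.exp ((∫ x, Q b f' x ∂μ) + -c + 2) ≤ 21 :=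
              (Real.exp_le_exp.2 (by linarith)).trans hexp3
            have h4 := mul_le_mul_of_nonneg_right h3 (Real.sqrt_nonneg p)
            linarith
        _ = _ := by ring
    refine hcomb.trans ?_
    have hvint0 : 0 ≤ ∫ x, v' x ∂μ := integral_nonneg hv0'
    rcases hp0.eq_or_lt with hpz | hpp
    · rw [← hpz, Real.sqrt_zero]; linarith
    -- p > 0
    have hclc : IsClosed {x | f x ≤ c} := isClosed_le hfc continuous_const
    have hcvc : Convex ℝ {x | f x ≤ c} := by
      have := hf.convex_le c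
      simpa using this
    have hnec : {x | f x ≤ c}.Nonempty := by
      by_contra h
      rw [not_nonempty_iff_eq_empty] at h
      have : p = 0 := by simp only [hp, hV]; rw [h]; simp
      linarith
    obtain ⟨i1, i2⟩ := hκ _ hclc hcvc hpp
    set Lc := Real.log (1 / p) with hLc
    have hplt : p < 1 := by
      have h3 := hVs c
      have h4 : Real.exp ((c - s) / ε + 4) < 1 := by
        rw [Real.exp_lt_one_iff]
        have : (c - s) / ε ≤ -62 := by
          rw [div_le_iff₀ hε0]; simp only [hc]; linarith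
        linarith
      linarith
    have hLc0 : 0 < Lc := by
      rw [hLc]
      apply Real.log_pos
      rw [lt_div_iff₀ hpp]; linarith
    set η := 1 / (4096 * b ^ 2) with hη
    have hη0 : 0 < η := by positivity
    -- pointwise bound on G
    have hpt : ∀ x ∈ G, η ≤ v' x * Metric.infDist x {x | f x ≤ c} ^ 2 := by
      intro x hx
      have hx' : s - 1 / 32 ≤ Q b f' x := hx
      obtain ⟨z, hz, hz'⟩ := hclc.exists_infDist_eq_dist hnec x
      rw [hz', dist_eq_norm]
      have h3 := Q_subgrad hb hf'c hm2 x z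
      have h4 : Q b f' z ≤ c := by
        refine (Q_le_self b hm2 z).trans ?_
        show max (f z) c ≤ c
        exact max_le hz le_rfl
      have h5 : -(‖x - prox b f' x‖ * ‖x - z‖) ≤ inner ℝ (x - prox b f' x) (z - x) := by
        have := (abs_le.1 (abs_real_inner_le_norm (x - prox b f' x) (z - x))).1
        rwa [norm_sub_rev z x] at this
      have h6 : 1 / 32 ≤ 2 * b ^ 2 * (‖x - prox b f' x‖ * ‖x - z‖) := by
        have h7 : 2 * b ^ 2 * -(‖x - prox b f' x‖ * ‖x - z‖)
            ≤ 2 * b ^ 2 * inner ℝ (x - prox b f' x) (z - x) :=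
          mul_le_mul_of_nonneg_left h5 (by positivity)
        linarith
      have h8 : (1 / 32 : ℝ) ^ 2 ≤ (2 * b ^ 2 * (‖x - prox b f' x‖ * ‖x - z‖)) ^ 2 :=
        pow_le_pow_left₀ (by norm_num) h6 2
      have h9 : (2 * b ^ 2 * (‖x - prox b f' x‖ * ‖x - z‖)) ^ 2
          = (v' x * ‖x - z‖ ^ 2) * (4 * b ^ 2) := by simp only [hv']; ring
      rw [h9] at h8
      rw [hη, div_le_iff₀ (by positivity)]
      nlinarith
    set τ := 1 / (2 * κ * Lc) with hτ
    have hτ0 : 0 < τ := by positivity
    have hint2 : ∫ x, (G.indicator (fun _ => 2 * η * τ) x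
        - η * τ ^ 2 * Metric.infDist x {x | f x ≤ c} ^ 2) ∂μ ≤ ∫ x, v' x ∂μ := by
      apply integral_mono (((integrable_const _).indicator hGm).sub (i1.const_mul _)) hvi'
      intro x
      show G.indicator (fun _ => 2 * η * τ) x
        - η * τ ^ 2 * Metric.infDist x {x | f x ≤ c} ^ 2 ≤ v' x
      set D := Metric.infDist x {x | f x ≤ c} ^ 2 with hD
      have hD0 : 0 ≤ D := by positivity
      by_cases hx : x ∈ G
      · rw [indicator_of_mem hx]
        have h3 := hpt x hx
        rw [← hD] at h3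
        have hDpos : 0 < D := by
          rcases hD0.eq_or_lt with h | h
          · rw [← h, mul_zero] at h3; linarith
          · exact h
        have h4 : (2 * η * τ - η * τ ^ 2 * D) * D ≤ v' x * D := by
          nlinarith [mul_nonneg hη0.le (sq_nonneg (1 - τ * D))]
        exact le_of_mul_le_mul_right h4 hDpos
      · rw [indicator_of_notMem hx]
        have := hv0' x
        have : 0 ≤ η * τ ^ 2 * D := by positivity
        linarith
    have hint3 : ∫ x, (G.indicator (fun _ => 2 * η * τ) x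
        - η * τ ^ 2 * Metric.infDist x {x | f x ≤ c} ^ 2) ∂μ
        = μ.real G * (2 * η * τ) - η * τ ^ 2 * ∫ x, Metric.infDist x {x | f x ≤ c} ^ 2 ∂μ := by
      rw [integral_sub ((integrable_const _).indicator hGm) (i1.const_mul _),
        integral_indicator_const _ hGm, integral_const_mul, smul_eq_mul]
    have hlow : 1 / (16384 * ε * Lc) ≤ ∫ x, v' x ∂μ := by
      rw [hint3] at hint2
      refine le_trans ?_ hint2
      have h3 : (1 / 2) * (2 * η * τ) ≤ μ.real G * (2 * η * τ) :=
        mul_le_mul_of_nonneg_right hGs (by positivity)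
      have h4 : η * τ ^ 2 * ∫ x, Metric.infDist x {x | f x ≤ c} ^ 2 ∂μ ≤ η * τ ^ 2 * (κ * Lc) :=
        mul_le_mul_of_nonneg_left i2 (by positivity)
      have h5 : 1 / (16384 * ε * Lc) = (1 / 2) * (2 * η * τ) - η * τ ^ 2 * (κ * Lc) := by
        rw [hη, hτ, hε]; field_simp; norm_num
      rw [h5]; linarith
    have hsq : Real.sqrt p * Lc ≤ 2 := by
      have hsp : 0 < Real.sqrt p := Real.sqrt_pos.2 hpp
      have h3 : Lc = -(2 * Real.log (Real.sqrt p)) := by
        rw [hLc, one_div, Real.log_inv, Real.log_sqrt hp0]; ring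
      have h4 : -Real.log (Real.sqrt p) ≤ 1 / Real.sqrt p - 1 := by
        have := Real.log_le_sub_one_of_pos (x := 1 / Real.sqrt p) (by positivity)
        rw [one_div, Real.log_inv] at this
        rw [one_div]; exact this
      have h5 : Lc ≤ 2 * (1 / Real.sqrt p - 1) := by rw [h3]; linarith
      calc Real.sqrt p * Lc ≤ Real.sqrt p * (2 * (1 / Real.sqrt p - 1)) :=
            mul_le_mul_of_nonneg_left h5 hsp.le
        _ = 2 - 2 * Real.sqrt p := by field_simp
        _ ≤ 2 := by linarith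
    have hfinal : 84 * Real.sqrt p ≤ 1 / (16384 * ε * Lc) := by
      rw [le_div_iff₀ (by positivity)]
      calc 84 * Real.sqrt p * (16384 * ε * Lc) = 84 * 16384 * ε * (Real.sqrt p * Lc) := by ring
        _ ≤ 84 * 16384 * ε * 2 := by gcongr
        _ ≤ 84 * 16384 * (1 / 10 ^ 7) * 2 := by gcongr
        _ ≤ 1 := by norm_num
    linarith

/-- `T^-` is monotone in the constant. -/
theorem TMinus_mono {a b : ℝ} (hb : 0 ≤ b) (hab : b ≤ a) {μ : Measure E}
    [IsProbabilityMeasure μ] (hm : ∀ f : E → ℝ, ConvexOn ℝ univ f → BddBelow (range f) →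
      AEStronglyMeasurable (fun x => Real.exp (Q b f x)) μ) (h : TMinus a μ) : TMinus b μ := by
  intro f hf hbdd hfi
  obtain ⟨h1, h2⟩ := h f hf hbdd hfi
  obtain ⟨m, hm'⟩ := hbdd
  have hmm : ∀ x, m ≤ f x := fun x => hm' ⟨x, rfl⟩
  have hle : ∀ x, Q b f x ≤ Q a f x := fun x => le_Q a (fun y => (Q_le b hmm x y).trans (by
    have : b ^ 2 ≤ a ^ 2 := pow_le_pow_left₀ hb hab 2
    have := mul_le_mul_of_nonneg_right this (sq_nonneg ‖x - y‖)
    linarith))
  have h3 : Integrable (fun x => Real.exp (Q b f x)) μ := by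
    apply h1.mono' (hm f hf ⟨m, hm'⟩)
    exact Eventually.of_forall (fun x => by
      rw [Real.norm_eq_abs, abs_of_pos (Real.exp_pos _)]
      exact Real.exp_le_exp.2 (hle x))
  exact ⟨h3, (integral_mono h3 h1 (fun x => Real.exp_le_exp.2 (hle x))).trans h2⟩

end Pool.Agent.R972.WT
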